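import Pool.Agent.E8helper63.LC.Conv
import Pool.Agent.E8helper19.LC.Stm2

/-!
Convergence of `K` to `K₀` with rate `α⁻²` (after `E8helper63/LC/Conv.lean`).
-/

set_option autoImplicit false
open MeasureTheory Filter Topology Set
open scoped ContDiff Real

namespace Pool.Agent.E8helper51.LC

open Pool.Agent.E8helper19.LC
open Pool.Agent.E8helper63.LC

lemma exp_rem (θ : ℝ) :
    ‖Complex.exp (Complex.I * (θ : ℂ)) - 1 - Complex.I * (θ : ℂ)‖ ≤ 2 * θ ^ 2 := by
  have hn : ‖Complex.I * (θ : ℂ)‖ = |θ| := by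
    rw [norm_mul, Complex.norm_I, one_mul, Complex.norm_real, Real.norm_eq_abs]
  rcases le_or_gt |θ| 1 with h | h
  · have h1 := Complex.norm_exp_sub_one_sub_id_le (x := Complex.I * (θ : ℂ)) (by rw [hn]; exact h)
    rw [hn, sq_abs] at h1
    nlinarith [sq_nonneg θ]
  · have h1 := Real.norm_exp_I_mul_ofReal_sub_one_le (x := θ)
    rw [Real.norm_eq_abs] at h1
    have h2 : |θ| ≤ θ ^ 2 := by
      rw [← sq_abs]
      nlinarith
    refine (norm_sub_le _ _).trans ?_
    rw [hn]
    linarith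

lemma pw_rem (p t u : ℝ) :
    ‖pw p t - pw p u - ((t - u : ℝ) : ℂ) * (Complex.I * p * pw p u)‖ ≤
      2 * p ^ 2 * |t - u| ^ 2 := by
  have e1 : pw p t = pw p u * Complex.exp (Complex.I * ((p * (t - u) : ℝ) : ℂ)) := by
    unfold pw
    rw [← Complex.exp_add]
    congr 1
    push_cast
    ring
  have e2 : pw p t - pw p u - ((t - u : ℝ) : ℂ) * (Complex.I * p * pw p u) =
      pw p u * (Complex.exp (Complex.I * ((p * (t - u) : ℝ) : ℂ)) - 1 -
        Complex.I * ((p * (t - u) : ℝ) : ℂ)) := by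
    rw [e1]
    push_cast
    ring
  rw [e2, norm_mul, pw_zero_norm, one_mul]
  refine (exp_rem _).trans (le_of_eq ?_)
  rw [sq_abs]
  ring

/-- the derivative of `t ↦ g₀(s - t)` -/
noncomputable def dg (k s u : ℝ) : ℂ := ((SignType.sign (s - u) : ℝ) : ℂ) * (1 / 2) * pw k |s - u|

lemma dg_norm (k s u : ℝ) : ‖dg k s u‖ ≤ 1 / 2 := by
  unfold dg
  rw [norm_mul, norm_mul, pw_zero_norm, mul_one, Complex.norm_real]
  have h1 : ‖(1 / 2 : ℂ)‖ = 1 / 2 := by norm_num
  rw [h1]
  have h2 : ‖((SignType.sign (s - u) : ℝ))‖ ≤ 1 := by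
    rcases lt_trichotomy (s - u) 0 with h | h | h
    · rw [sign_neg h]; simp
    · rw [h, sign_zero]; simp
    · rw [sign_pos h]; simp
  linarith

lemma g0_rem {k : ℝ} (hk : 0 < k) (s t u : ℝ) :
    ‖g0 k (s - t) - g0 k (s - u) - ((t - u : ℝ) : ℂ) * dg k s u‖ ≤
      k * |t - u| ^ 2 + (if |s - u| ≤ |t - u| then |t - u| else 0) := by
  split_ifs with hcase
  · have h1 : ‖g0 k (s - t) - g0 k (s - u)‖ ≤ 1 / 2 * |t - u| := by
      refine (g0_lip hk _ _).trans (le_of_eq ?_)
      congr 1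
      rw [← abs_neg]; congr 1; ring
    have h2 : ‖((t - u : ℝ) : ℂ) * dg k s u‖ ≤ |t - u| * (1 / 2) := by
      rw [norm_mul, Complex.norm_real, Real.norm_eq_abs]
      exact mul_le_mul_of_nonneg_left (dg_norm k s u) (abs_nonneg _)
    have h3 : 0 ≤ k * |t - u| ^ 2 := by positivity
    refine (norm_sub_le _ _).trans ?_
    linarith
  · push Not at hcase
    rw [add_zero]
    have hk0 : (k : ℂ) ≠ 0 := by exact_mod_cast hk.ne'
    -- the difference of the absolute values
    obtain ⟨σ, hσ, hσ1, h1, h2⟩ : ∃ σ : ℝ, ((SignType.sign (s - u) : ℝ)) = σ ∧ σ ^ 2 = 1 ∧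
        |s - u| = σ * (s - u) ∧ |s - t| = σ * (s - t) := by
      rcases lt_trichotomy (s - u) 0 with h | h | h
      · refine ⟨-1, by rw [sign_neg h]; simp, by norm_num, by rw [abs_of_neg h]; ring, ?_⟩
        rw [abs_of_neg h, abs_lt] at hcase
        rw [abs_of_neg (by linarith)]
        ring
      · exfalso
        rw [h, abs_zero] at hcase
        exact absurd hcase (not_lt.2 (abs_nonneg _))
      · refine ⟨1, by rw [sign_pos h]; simp, by norm_num, by rw [abs_of_pos h]; ring, ?_⟩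
        rw [abs_of_pos h, abs_lt] at hcase
        rw [abs_of_pos (by linarith)]
        ring
    have e0 : |s - t| = |s - u| + σ * (u - t) := by rw [h1, h2]; ring
    have e1 : pw k |s - t| = pw k |s - u| * Complex.exp (Complex.I * ((k * (σ * (u - t)) : ℝ) : ℂ)) := by
      rw [e0]
      unfold pw
      rw [← Complex.exp_add]
      congr 1
      push_cast
      ring
    have e2 : g0 k (s - t) - g0 k (s - u) - ((t - u : ℝ) : ℂ) * dg k s u =
        Complex.I / (2 * k) * pw k |s - u| *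
          (Complex.exp (Complex.I * ((k * (σ * (u - t)) : ℝ) : ℂ)) - 1 -
            Complex.I * ((k * (σ * (u - t)) : ℝ) : ℂ)) := by
      unfold g0 dg
      rw [e1, hσ]
      have hI : Complex.I * Complex.I = -1 := Complex.I_mul_I
      push_cast
      field_simp
      linear_combination (pw k |s - u| * (σ : ℂ) * ((u : ℂ) - t) * (k : ℂ)) * hI
    rw [e2, norm_mul, norm_mul, pw_zero_norm, mul_one]
    have e3 : ‖Complex.I / (2 * (k : ℂ))‖ = 1 / (2 * k) := by
      rw [norm_div, Complex.norm_I, norm_mul, Complex.norm_real, Real.norm_of_nonneg hk.le]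
      simp
    rw [e3]
    have h4 := exp_rem (k * (σ * (u - t)))
    calc 1 / (2 * k) * _ ≤ 1 / (2 * k) * (2 * (k * (σ * (u - t))) ^ 2) :=
          mul_le_mul_of_nonneg_left h4 (by positivity)
      _ = k * (σ ^ 2 * (t - u) ^ 2) := by
          field_simp
          ring
      _ = k * |t - u| ^ 2 := by rw [hσ1, one_mul, sq_abs]

/-- the main estimate -/
lemma main_est2 {D : ℝ → ℝ → ℝ} {κ : ℝ → ℝ} {β C1 C2 C3 C4 a b c M s : ℝ} {Φ Φ' f : ℝ → ℂ}
    (hD0 : ∀ s t, 0 ≤ D s t) (hDi : Integrable (fun z : ℝ × ℝ => D z.1 z.2))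
    (hDs : ∀ u, Integrable (fun t => D t u))
    (hDd : Integrable (fun z : ℝ × ℝ => D z.1 z.2 * |z.1 - z.2|))
    (hDq : Integrable (fun z : ℝ × ℝ => D z.1 z.2 * |z.1 - z.2| ^ 2))
    (hC1 : ∫ u, |∫ t, (t - u) * D t u| ≤ C1)
    (hC3 : ∫ z : ℝ × ℝ, D z.1 z.2 * |z.1 - z.2| ^ 2 ≤ C3)
    (hC4 : ∫ z : ℝ × ℝ, (if |s - z.2| ≤ |z.1 - z.2| then D z.1 z.2 * |z.1 - z.2| else 0) ≤ C4)
    (hC2 : ∫ u, |β * (∫ t, D t u) - κ u| ≤ C2)
    (hκ : Integrable κ) (hβ : 0 ≤ β) (ha : 0 ≤ a) (hb : 0 ≤ b) (hc : 0 ≤ c)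
    (hΦc : Continuous Φ) (hΦb : ∀ t, ‖Φ t‖ ≤ b) (hΦ' : ∀ u, ‖Φ' u‖ ≤ a)
    (hR : ∀ t u, ‖Φ t - Φ u - ((t - u : ℝ) : ℂ) * Φ' u‖ ≤
      c * |t - u| ^ 2 + (if |s - u| ≤ |t - u| then |t - u| else 0))
    (hfc : Continuous f) (hfM : ∀ t, ‖f t‖ ≤ M) :
    ‖(β : ℂ) * (∫ t, Φ t * ∫ u, (D t u : ℂ) * f u) - ∫ u, Φ u * ((κ u : ℂ) * f u)‖ ≤
      (β * (a * C1 + c * C3 + C4) + b * C2) * M := by
  have hM : 0 ≤ M := (norm_nonneg _).trans (hfM 0)
  have hDiC : Integrable (fun z : ℝ × ℝ => (D z.1 z.2 : ℂ)) := hDi.ofReal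
  have hF : Integrable (fun z : ℝ × ℝ => Φ z.1 * ((D z.1 z.2 : ℂ) * f z.2)) := by
    refine (hDi.norm.const_mul (b * M)).mono' ?_ ?_
    · exact ((hΦc.comp continuous_fst).aestronglyMeasurable).mul
        (hDiC.aestronglyMeasurable.mul (hfc.comp continuous_snd).aestronglyMeasurable)
    · filter_upwards with z
      rw [norm_mul, norm_mul, Complex.norm_real]
      have h1 := hΦb z.1
      have h2 := hfM z.2
      calc ‖Φ z.1‖ * (‖D z.1 z.2‖ * ‖f z.2‖) ≤ b * (‖D z.1 z.2‖ * M) := by gcongr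
        _ = b * M * ‖D z.1 z.2‖ := by ring
  have hswap : ∫ t, Φ t * ∫ u, (D t u : ℂ) * f u = ∫ u, ∫ t, Φ t * ((D t u : ℂ) * f u) := by
    have h1 : ∀ t, Φ t * ∫ u, (D t u : ℂ) * f u = ∫ u, Φ t * ((D t u : ℂ) * f u) := fun t =>
      (integral_const_mul _ _).symm
    simp_rw [h1]
    exact integral_integral_swap hF
  have hin : ∀ u, ∫ t, Φ t * ((D t u : ℂ) * f u) = (∫ t, Φ t * (D t u : ℂ)) * f u := by
    intro u
    rw [← integral_mul_const]
    apply integral_congr_ae
    filter_upwards with t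
    ring
  rw [hswap]
  have hI1 : Integrable (fun u => ∫ t, Φ t * ((D t u : ℂ) * f u)) := hF.integral_prod_right
  have hI2 : Integrable (fun u => Φ u * ((κ u : ℂ) * f u)) := by
    refine (hκ.norm.const_mul (b * M)).mono' ?_ ?_
    · exact hΦc.aestronglyMeasurable.mul (hκ.ofReal.aestronglyMeasurable.mul hfc.aestronglyMeasurable)
    · filter_upwards with z
      rw [norm_mul, norm_mul, Complex.norm_real]
      have h1 := hΦb z
      have h2 := hfM z
      calc ‖Φ z‖ * (‖κ z‖ * ‖f z‖) ≤ b * (‖κ z‖ * M) := by gcongr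
        _ = b * M * ‖κ z‖ := by ring
  rw [← integral_const_mul, ← integral_sub (hI1.const_mul _) hI2]
  -- integrability of the four bounds
  have hDe : Integrable (fun z : ℝ × ℝ =>
      (if |s - z.2| ≤ |z.1 - z.2| then D z.1 z.2 * |z.1 - z.2| else 0)) := by
    have hms : MeasurableSet {z : ℝ × ℝ | |s - z.2| ≤ |z.1 - z.2|} :=
      (isClosed_le (by fun_prop) (by fun_prop)).measurableSet
    refine (hDd.indicator hms).congr (Filter.Eventually.of_forall fun z => ?_)
    simp only [Set.indicator, Set.mem_ofPred_eq]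
  have hDm : Integrable (fun z : ℝ × ℝ => (z.1 - z.2) * D z.1 z.2) := by
    refine hDd.mono' ?_ ?_
    · exact (continuous_fst.sub continuous_snd).aestronglyMeasurable.mul hDi.aestronglyMeasurable
    · filter_upwards with z
      rw [norm_mul, Real.norm_eq_abs, Real.norm_of_nonneg (hD0 _ _), mul_comm]
  have hDq' : Integrable (fun u => ∫ t, D t u * |t - u| ^ 2) := hDq.integral_prod_right
  have hDe' : Integrable (fun u => ∫ t, (if |s - u| ≤ |t - u| then D t u * |t - u| else 0)) :=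
    hDe.integral_prod_right
  have hDm' : Integrable (fun u => |∫ t, (t - u) * D t u|) := hDm.integral_prod_right.abs
  have hDi' : Integrable (fun u => ∫ t, D t u) := hDi.integral_prod_right
  have hH : Integrable (fun u => b * |β * (∫ t, D t u) - κ u|) :=
    ((hDi'.const_mul β).sub hκ).abs.const_mul b
  have hG1 : Integrable (fun u => a * |∫ t, (t - u) * D t u| + c * (∫ t, D t u * |t - u| ^ 2)) :=
    (hDm'.const_mul a).add (hDq'.const_mul c)
  have hG2 : Integrable (fun u => a * |∫ t, (t - u) * D t u| + c * (∫ t, D t u * |t - u| ^ 2) +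
      ∫ t, (if |s - u| ≤ |t - u| then D t u * |t - u| else 0)) := hG1.add hDe'
  have hG3 : Integrable (fun u => β * (a * |∫ t, (t - u) * D t u| +
      c * (∫ t, D t u * |t - u| ^ 2) +
      ∫ t, (if |s - u| ≤ |t - u| then D t u * |t - u| else 0))) := hG2.const_mul β
  have hG : Integrable (fun u => M * (β * (a * |∫ t, (t - u) * D t u| +
      c * (∫ t, D t u * |t - u| ^ 2) +
      ∫ t, (if |s - u| ≤ |t - u| then D t u * |t - u| else 0)) +
      b * |β * (∫ t, D t u) - κ u|)) := (hG3.add hH).const_mul M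
  refine (norm_integral_le_of_norm_le hG ?_).trans ?_
  · filter_upwards [hDm.prod_left_ae, hDq.prod_left_ae, hDe.prod_left_ae] with u hu hu2 hu3
    have hPhi : Integrable (fun t => Φ t * (D t u : ℂ)) := by
      refine ((hDs u).norm.const_mul b).mono' ?_ ?_
      · exact hΦc.aestronglyMeasurable.mul (hDs u).ofReal.aestronglyMeasurable
      · filter_upwards with t
        rw [norm_mul, Complex.norm_real]
        exact mul_le_mul_of_nonneg_right (hΦb t) (norm_nonneg _)
    have hDC : Integrable (fun t => Φ u * (D t u : ℂ)) := (hDs u).ofReal.const_mul _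
    have hE : Integrable (fun t => Φ' u * (((t - u) * D t u : ℝ) : ℂ)) := hu.ofReal.const_mul _
    have hRi : Integrable (fun t => (Φ t - Φ u - ((t - u : ℝ) : ℂ) * Φ' u) * (D t u : ℂ)) := by
      have e : (fun t => (Φ t - Φ u - ((t - u : ℝ) : ℂ) * Φ' u) * (D t u : ℂ)) = fun t =>
          Φ t * (D t u : ℂ) - Φ u * (D t u : ℂ) - Φ' u * (((t - u) * D t u : ℝ) : ℂ) := by
        funext t
        push_cast
        ring
      rw [e]
      exact (hPhi.sub hDC).sub hE
    have e1 : (∫ t, Φ t * (D t u : ℂ)) =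
        (∫ t, (Φ t - Φ u - ((t - u : ℝ) : ℂ) * Φ' u) * (D t u : ℂ)) +
          Φ' u * ((∫ t, (t - u) * D t u : ℝ) : ℂ) + Φ u * ((∫ t, D t u : ℝ) : ℂ) := by
      have hRE : Integrable (fun t => (Φ t - Φ u - ((t - u : ℝ) : ℂ) * Φ' u) * (D t u : ℂ) +
          Φ' u * (((t - u) * D t u : ℝ) : ℂ)) := hRi.add hE
      rw [← integral_complex_ofReal, ← integral_complex_ofReal, ← integral_const_mul,
        ← integral_const_mul, ← integral_add hRi hE, ← integral_add hRE hDC]
      apply integral_congr_ae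
      filter_upwards with t
      push_cast
      ring
    have e2 : (β : ℂ) * (∫ t, Φ t * ((D t u : ℂ) * f u)) - Φ u * ((κ u : ℂ) * f u) =
        f u * ((β : ℂ) * ((∫ t, (Φ t - Φ u - ((t - u : ℝ) : ℂ) * Φ' u) * (D t u : ℂ)) +
          Φ' u * ((∫ t, (t - u) * D t u : ℝ) : ℂ)) +
          Φ u * ((β * (∫ t, D t u) - κ u : ℝ) : ℂ)) := by
      rw [hin u, e1]
      push_cast
      ring
    rw [e2, norm_mul]
    have h3 : ‖∫ t, (Φ t - Φ u - ((t - u : ℝ) : ℂ) * Φ' u) * (D t u : ℂ)‖ ≤
        c * (∫ t, D t u * |t - u| ^ 2) +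
          ∫ t, (if |s - u| ≤ |t - u| then D t u * |t - u| else 0) := by
      rw [← integral_const_mul, ← integral_add (hu2.const_mul c) hu3]
      refine norm_integral_le_of_norm_le ((hu2.const_mul c).add hu3) ?_
      filter_upwards with t
      rw [norm_mul, Complex.norm_real, Real.norm_of_nonneg (hD0 t u)]
      calc ‖Φ t - Φ u - ((t - u : ℝ) : ℂ) * Φ' u‖ * D t u ≤
            (c * |t - u| ^ 2 + (if |s - u| ≤ |t - u| then |t - u| else 0)) * D t u := by
            apply mul_le_mul_of_nonneg_right (hR t u) (hD0 t u)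
        _ = c * (D t u * |t - u| ^ 2) +
            (if |s - u| ≤ |t - u| then D t u * |t - u| else 0) := by
            split_ifs <;> ring
    have h4 : ‖(β : ℂ) * ((∫ t, (Φ t - Φ u - ((t - u : ℝ) : ℂ) * Φ' u) * (D t u : ℂ)) +
          Φ' u * ((∫ t, (t - u) * D t u : ℝ) : ℂ)) +
          Φ u * ((β * (∫ t, D t u) - κ u : ℝ) : ℂ)‖ ≤
        β * (a * |∫ t, (t - u) * D t u| + c * (∫ t, D t u * |t - u| ^ 2) +
          ∫ t, (if |s - u| ≤ |t - u| then D t u * |t - u| else 0)) +
          b * |β * (∫ t, D t u) - κ u| := by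
      refine (norm_add_le _ _).trans ?_
      apply add_le_add
      · rw [norm_mul, Complex.norm_real, Real.norm_of_nonneg hβ]
        apply mul_le_mul_of_nonneg_left _ hβ
        refine (norm_add_le _ _).trans ?_
        have h5 : ‖Φ' u * ((∫ t, (t - u) * D t u : ℝ) : ℂ)‖ ≤ a * |∫ t, (t - u) * D t u| := by
          rw [norm_mul, Complex.norm_real, Real.norm_eq_abs]
          exact mul_le_mul_of_nonneg_right (hΦ' u) (abs_nonneg _)
        linarith
      · rw [norm_mul, Complex.norm_real, Real.norm_eq_abs]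
        exact mul_le_mul_of_nonneg_right (hΦb u) (abs_nonneg _)
    exact mul_le_mul (hfM u) h4 (norm_nonneg _) hM
  · rw [integral_const_mul, integral_add hG3 hH, integral_const_mul, integral_const_mul,
      integral_add hG1 hDe', integral_add (hDm'.const_mul a) (hDq'.const_mul c),
      integral_const_mul, integral_const_mul]
    have e3 : ∫ u, ∫ t, D t u * |t - u| ^ 2 = ∫ z : ℝ × ℝ, D z.1 z.2 * |z.1 - z.2| ^ 2 :=
      (integral_prod_symm (fun z : ℝ × ℝ => D z.1 z.2 * |z.1 - z.2| ^ 2) hDq).symm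
    have e4 : ∫ u, ∫ t, (if |s - u| ≤ |t - u| then D t u * |t - u| else 0) =
        ∫ z : ℝ × ℝ, (if |s - z.2| ≤ |z.1 - z.2| then D z.1 z.2 * |z.1 - z.2| else 0) :=
      (integral_prod_symm (fun z : ℝ × ℝ =>
        (if |s - z.2| ≤ |z.1 - z.2| then D z.1 z.2 * |z.1 - z.2| else 0)) hDe).symm
    rw [e3, e4, mul_comm _ M]
    apply mul_le_mul_of_nonneg_left _ hM
    apply add_le_add
    · apply mul_le_mul_of_nonneg_left _ hβ
      exact add_le_add (add_le_add (mul_le_mul_of_nonneg_left hC1 ha)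
        (mul_le_mul_of_nonneg_left hC3 hc)) hC4
    · exact mul_le_mul_of_nonneg_left hC2 hb

theorem t_CONV2 (h : S_D1) (h1 : S_D1B) (h2 : S_D1C) (h3 : S_D2B) (h4 : S_D3) (h5 : S_TAY) :
    SCONV 2 := by
  intro γ L k hγ hne hk
  obtain ⟨A1, C1, hA1, hC1, hD1⟩ := h γ L k hγ hne hk
  obtain ⟨A2, C2, hA2, hC2, hD2⟩ := h3 γ L k hγ hne hk
  obtain ⟨A3, C3, hA3, hC3, hD1B⟩ := h1 γ L k hγ hne hk
  obtain ⟨A4, C4, hA4, hC4, hD1C⟩ := h2 γ L k hγ hne hk
  obtain ⟨_, _, _, _, _, hκc, hκ0⟩ := h5 γ L hγ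
  have hκs : HasCompactSupport (fun s => kap2 γ s / 4) := by
    apply HasCompactSupport.of_support_subset_isCompact (isCompact_Icc (a := -L) (b := L))
    intro s hs
    by_contra hcon
    apply hs
    have h5 : L < |s| := by
      by_contra h6
      push Not at h6
      exact hcon (abs_le.1 h6)
    simp only
    rw [hκ0 s h5]
    norm_num
  have hκi : Integrable (fun s => kap2 γ s / 4) := (hκc.div_const 4).integrable_of_hasCompactSupport hκs
  set E1 : ℝ := (1 / 2 * C4 + k * C3 + C3) / 2 + 1 / (2 * k) * C2 + 2 * C1 with hE1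
  set E2 : ℝ := (k * C4 + 2 * k ^ 2 * C3 + C3) / 2 + 1 * C2 with hE2
  have hE1p : 0 < E1 := by rw [hE1]; positivity
  have hE2p : 0 < E2 := by rw [hE2]; positivity
  refine ⟨max (max (max A1 A2) (max A3 A4)) 1, E1 + E2,
    lt_of_lt_of_le hA1 (((le_max_left _ _).trans (le_max_left _ _)).trans (le_max_left _ _)),
    by positivity, ?_⟩
  intro α w f M hα hw hf hfM
  have hα1 : A1 ≤ α :=
    (((le_max_left _ _).trans (le_max_left _ _)).trans (le_max_left _ _)).trans hα
  have hα2 : A2 ≤ α :=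
    (((le_max_right _ _).trans (le_max_left _ _)).trans (le_max_left _ _)).trans hα
  have hα3 : A3 ≤ α :=
    (((le_max_left _ _).trans (le_max_right _ _)).trans (le_max_left _ _)).trans hα
  have hα4 : A4 ≤ α :=
    (((le_max_right _ _).trans (le_max_right _ _)).trans (le_max_left _ _)).trans hα
  have hα5 : 1 ≤ α := (le_max_right _ _).trans hα
  have hα0 : 0 < α := by linarith
  have h2k : 2 * k < α := lt_of_lt_of_le hA1 hα1
  obtain ⟨hD1a, hD1b, hD1c, hD1d⟩ := hD1 α hα1
  have hD2' := hD2 α hα2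
  obtain ⟨hB1, hB2, hB3⟩ := hD1B α hα3
  have hC' := hD1C α hα4
  obtain ⟨hD0, hDsym, hDint, hDsl, -, hDDf⟩ := h4 γ L k α hγ hne hk h2k
  obtain ⟨hBC, hInt, -, -⟩ := hDDf f hf
  have hM : 0 ≤ M := (norm_nonneg _).trans (hfM 0)
  have hsl2 : ∀ u, Integrable (fun t => Dk α k γ t u) := by
    intro u
    have : (fun t => Dk α k γ t u) = fun t => Dk α k γ u t := by
      funext t; exact hDsym t u
    rw [this]
    exact hDsl u
  -- the bound of `D f`
  have hDb : ∀ s, ‖DD α k γ f s‖ ≤ C1 / α ^ 2 * M := by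
    intro s
    unfold DD
    refine (norm_integral_le_of_norm_le ((hDsl s).mul_const M) ?_).trans ?_
    · filter_upwards with t
      rw [norm_mul, Complex.norm_real, Real.norm_of_nonneg (hD0 s t)]
      exact mul_le_mul_of_nonneg_left (hfM t) (hD0 s t)
    · rw [integral_mul_const]
      exact mul_le_mul_of_nonneg_right (hD1a s) hM
  have main := fun (Φ Φ' : ℝ → ℂ) (a b c s : ℝ) (ha : 0 ≤ a) (hb : 0 ≤ b) (hc : 0 ≤ c)
      (hΦc : Continuous Φ) (hΦb : ∀ t, ‖Φ t‖ ≤ b) (hΦ' : ∀ u, ‖Φ' u‖ ≤ a)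
      (hR : ∀ t u, ‖Φ t - Φ u - ((t - u : ℝ) : ℂ) * Φ' u‖ ≤
        c * |t - u| ^ 2 + (if |s - u| ≤ |t - u| then |t - u| else 0)) =>
    main_est2 (D := Dk α k γ) (κ := fun s => kap2 γ s / 4) (β := α ^ 2 / 2) (C1 := C4 / α ^ 4)
      (C2 := C2 / α ^ 2) (C3 := C3 / α ^ 4) (C4 := C3 / α ^ 4) (a := a) (b := b) (c := c) (M := M)
      (Φ := Φ) (Φ' := Φ') (f := f) (s := s) hD0 hDint hsl2 hD1c hB1 hC' hB2 (hB3 s) hD2' hκi
      (by positivity) ha hb hc hΦc hΦb hΦ' hR hf.cont hfM
  have harith : ∀ a b c : ℝ, (α ^ 2 / 2 * (a * (C4 / α ^ 4) + c * (C3 / α ^ 4) + C3 / α ^ 4) +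
      b * (C2 / α ^ 2)) * M = ((a * C4 + c * C3 + C3) / 2 + b * C2) / α ^ 2 * M := by
    intro a b c
    field_simp
  refine ⟨?_, ?_, ?_⟩
  · -- continuity and boundedness
    obtain ⟨B, hB⟩ := hBC.bdd
    have hB0 : 0 ≤ B := (norm_nonneg _).trans (hB 0)
    have c1 : Continuous (fun s => ∫ t, g0 k (s - t) * DD α k γ f t) := by
      apply continuous_of_dominated (bound := fun t => 1 / (2 * k) * ‖DD α k γ f t‖)
      · intro s
        exact ((g0_cont k).comp (continuous_const.sub continuous_id)).aestronglyMeasurable.mul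
          hInt.aestronglyMeasurable
      · intro s
        filter_upwards with t
        rw [norm_mul, g0_norm hk]
      · exact hInt.norm.const_mul _
      · filter_upwards with t
        exact ((g0_cont k).comp (continuous_id.sub continuous_const)).mul continuous_const
    have e3 : ∀ s, ∫ t, (w (s - t) : ℂ) * DD α k γ f t = ∫ u, (w u : ℂ) * DD α k γ f (s - u) := by
      intro s
      rw [← integral_sub_left_eq_self (fun u => (w u : ℂ) * DD α k γ f (s - u)) volume s]
      apply integral_congr_ae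
      filter_upwards with t
      simp
    have c3 : Continuous (fun s => ∫ t, (w (s - t) : ℂ) * DD α k γ f t) := by
      have : (fun s => ∫ t, (w (s - t) : ℂ) * DD α k γ f t) = fun s => ∫ u, (w u : ℂ) * DD α k γ f (s - u) :=
        funext e3
      rw [this]
      apply continuous_of_dominated (bound := fun u => ‖w u‖ * B)
      · intro s
        exact hw.int.ofReal.aestronglyMeasurable.mul
          (hBC.cont.comp (continuous_const.sub continuous_id)).aestronglyMeasurable
      · intro s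
        filter_upwards with u
        rw [norm_mul, Complex.norm_real]
        exact mul_le_mul_of_nonneg_left (hB _) (norm_nonneg _)
      · exact hw.int.norm.mul_const B
      · filter_upwards with u
        exact continuous_const.mul (hBC.cont.comp (continuous_id.sub continuous_const))
    refine ⟨?_, ⟨‖((α ^ 2 / 2 : ℝ) : ℂ)‖ * (1 / (2 * k) * ∫ t, ‖DD α k γ f t‖) + B + (∫ u, ‖w u‖) * B, ?_⟩⟩
    · exact ((continuous_const.mul c1).add hBC.cont).add c3
    · intro s
      unfold KK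
      refine (norm_add_le _ _).trans (add_le_add ((norm_add_le _ _).trans (add_le_add ?_ (hB s))) ?_)
      · rw [norm_mul]
        apply mul_le_mul_of_nonneg_left _ (norm_nonneg _)
        rw [← integral_const_mul]
        refine norm_integral_le_of_norm_le (hInt.norm.const_mul _) ?_
        filter_upwards with t
        rw [norm_mul, g0_norm hk]
      · rw [e3 s, ← integral_mul_const]
        refine norm_integral_le_of_norm_le (hw.int.norm.mul_const B) ?_
        filter_upwards with u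
        rw [norm_mul, Complex.norm_real]
        exact mul_le_mul_of_nonneg_left (hB _) (norm_nonneg _)
  · intro s
    have m1 := main (fun t => g0 k (s - t)) (dg k s) (1 / 2) (1 / (2 * k)) k s (by norm_num)
      (by positivity) hk.le ((g0_cont k).comp (continuous_const.sub continuous_id))
      (fun t => (g0_norm hk _).le) (dg_norm k s) (fun t u => g0_rem hk s t u)
    rw [harith] at m1
    have m3 : ‖∫ t, (w (s - t) : ℂ) * DD α k γ f t‖ ≤ C1 / α ^ 2 * M := by
      have e3 : ∫ t, (w (s - t) : ℂ) * DD α k γ f t = ∫ u, (w u : ℂ) * DD α k γ f (s - u) := by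
        rw [← integral_sub_left_eq_self (fun u => (w u : ℂ) * DD α k γ f (s - u)) volume s]
        apply integral_congr_ae
        filter_upwards with t
        simp
      rw [e3]
      have h9 : 0 ≤ C1 / α ^ 2 * M := by positivity
      calc ‖∫ u, (w u : ℂ) * DD α k γ f (s - u)‖ ≤ ∫ u, |w u| * (C1 / α ^ 2 * M) := by
            refine norm_integral_le_of_norm_le (hw.int.abs.mul_const _) ?_
            filter_upwards with u
            rw [norm_mul, Complex.norm_real, Real.norm_eq_abs]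
            exact mul_le_mul_of_nonneg_left (hDb _) (abs_nonneg _)
        _ = (∫ u, |w u|) * (C1 / α ^ 2 * M) := integral_mul_const _ _
        _ ≤ 1 * (C1 / α ^ 2 * M) := mul_le_mul_of_nonneg_right hw.le h9
        _ = _ := one_mul _
    have e4 : KK α k γ w f s - K0 k (fun s => kap2 γ s / 4) f s =
        (((α ^ 2 / 2 : ℝ) : ℂ) * (∫ t, g0 k (s - t) * ∫ u, (Dk α k γ t u : ℂ) * f u) -
          ∫ u, g0 k (s - u) * (((kap2 γ u / 4 : ℝ) : ℂ) * f u)) + DD α k γ f s +
          ∫ t, (w (s - t) : ℂ) * DD α k γ f t := by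
      unfold KK K0 DD
      ring
    rw [e4]
    calc _ ≤ ((1 / 2 * C4 + k * C3 + C3) / 2 + 1 / (2 * k) * C2) / α ^ 2 * M +
          C1 / α ^ 2 * M + C1 / α ^ 2 * M :=
          (norm_add_le _ _).trans (add_le_add ((norm_add_le _ _).trans (add_le_add m1 (hDb s))) m3)
      _ = E1 / α ^ 2 * M := by rw [hE1]; ring
      _ ≤ (E1 + E2) / α ^ 2 * M := by
          apply mul_le_mul_of_nonneg_right _ hM
          apply div_le_div_of_nonneg_right _ (by positivity)
          linarith
  · intro p hp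
    have hp1 : |p| = k := by
      rcases hp with rfl | rfl
      · exact abs_of_pos hk
      · rw [abs_neg, abs_of_pos hk]
    have hp2 : p ^ 2 = k ^ 2 := by rw [← sq_abs, hp1]
    have m1 := main (pw p) (fun u => Complex.I * p * pw p u) k 1 (2 * k ^ 2) 0 hk.le (by norm_num)
      (by positivity) (pw_cont p) (fun t => (pw_zero_norm p t).le) (by
        intro u
        rw [norm_mul, norm_mul, pw_zero_norm, Complex.norm_I, Complex.norm_real, Real.norm_eq_abs,
          hp1]
        linarith) (by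
        intro t u
        have h6 := pw_rem p t u
        rw [hp2] at h6
        refine h6.trans ?_
        have h7 : 0 ≤ (if |0 - u| ≤ |t - u| then |t - u| else 0) := by
          split_ifs
          · exact abs_nonneg _
          · exact le_rfl
        linarith)
    rw [harith] at m1
    have e5 : ∫ s, pw p s * DD α k γ f s = ∫ t, pw p t * ∫ u, (Dk α k γ t u : ℂ) * f u := rfl
    rw [e5]
    refine m1.trans ?_
    apply mul_le_mul_of_nonneg_right _ hM
    apply div_le_div_of_nonneg_right _ (by positivity)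
    linarith

end Pool.Agent.E8helper51.LC
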