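import Pool.Agent.E8helper19.LC.Stm

/-!
The second equation for the kernel `w` of the project LC: injectivity of the Fourier transform.
-/

set_option autoImplicit false

open MeasureTheory Filter Topology Set
open scoped Real Convolution

namespace Pool.Agent.E8helper51.LC

open Pool.Agent.E8helper19.LC

theorem norm_pw (p r : ℝ) : ‖pw p r‖ = 1 := by
  unfold pw
  have : Complex.I * (p : ℂ) * (r : ℂ) = ((p * r : ℝ) : ℂ) * Complex.I := by
    push_cast
    ring
  rw [this, Complex.norm_exp_ofReal_mul_I]

theorem continuous_pw (p : ℝ) : Continuous (pw p) := by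
  unfold pw
  fun_prop

theorem pw_add (p s t : ℝ) : pw p (s + t) = pw p s * pw p t := by
  unfold pw
  rw [← Complex.exp_add]
  congr 1
  push_cast
  ring

theorem integrable_pw {g : ℝ → ℝ} (hg : Integrable g) (p : ℝ) :
    Integrable fun x => (g x : ℂ) * pw p x := by
  refine (hg.ofReal (𝕜 := ℂ)).mul_bdd (c := 1) (continuous_pw p).aestronglyMeasurable ?_
  exact ae_of_all _ fun x => (norm_pw p x).le

theorem charFun_wd {g : ℝ → ℝ} (hg : Integrable g) (hg0 : ∀ x, 0 ≤ g x) (t : ℝ) :
    charFun (volume.withDensity fun x => ENNReal.ofReal (g x)) t = ∫ x, (g x : ℂ) * pw t x := by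
  rw [charFun_apply_real]
  rw [integral_withDensity_eq_integral_toReal_smul₀ hg.aemeasurable.ennreal_ofReal (by simp)]
  refine integral_congr_ae (ae_of_all _ fun x => ?_)
  simp only [ENNReal.toReal_ofReal (hg0 x)]
  rw [Complex.real_smul]
  unfold pw
  congr 2
  ring

theorem inj {F : ℝ → ℝ} (hF : Integrable F) (h : ∀ p : ℝ, ∫ r, (F r : ℂ) * pw p r = 0) :
    ∀ᵐ x : ℝ, F x = 0 := by
  have h1 : Integrable (fun x => max (F x) 0) := hF.pos_part
  have h2 : Integrable (fun x => max (-F x) 0) := hF.neg_part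
  have e : ∀ x, F x = max (F x) 0 - max (-F x) 0 := by
    intro x
    rcases le_total 0 (F x) with h | h
    · rw [max_eq_left h, max_eq_right (by linarith), sub_zero]
    · rw [max_eq_right h, max_eq_left (by linarith)]
      ring
  have := isFiniteMeasure_withDensity_ofReal h1.2
  have := isFiniteMeasure_withDensity_ofReal h2.2
  have hm : volume.withDensity (fun x => ENNReal.ofReal (max (F x) 0)) =
      volume.withDensity (fun x => ENNReal.ofReal (max (-F x) 0)) := by
    apply Measure.ext_of_charFun
    funext t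
    rw [charFun_wd h1 (fun x => le_max_right _ _), charFun_wd h2 (fun x => le_max_right _ _),
      ← sub_eq_zero, ← integral_sub (integrable_pw h1 t) (integrable_pw h2 t), ← h t]
    refine integral_congr_ae (ae_of_all _ fun x => ?_)
    show _ - _ = (F x : ℂ) * pw t x
    have e' : (F x : ℂ) = ((max (F x) 0 : ℝ) : ℂ) - ((max (-F x) 0 : ℝ) : ℂ) := by
      rw [← Complex.ofReal_sub, ← e x]
    rw [e']
    ring
  have h3 := (withDensity_eq_iff h1.aemeasurable.ennreal_ofReal h2.aemeasurable.ennreal_ofReal
    ((hasFiniteIntegral_iff_ofReal (f := fun x => max (F x) 0)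
      (ae_of_all _ fun x => le_max_right _ _)).1 h1.2).ne).1 hm
  filter_upwards [h3] with x hx
  have h4 := (ENNReal.ofReal_eq_ofReal_iff (le_max_right _ _) (le_max_right _ _)).1 hx
  rw [e x, h4, sub_self]

theorem t_WC (h : S_FT) (h2 : S_G) : S_WC := by
  intro α k w hk hα hw
  have hμ : 0 < mu α k := by
    unfold mu
    apply Real.sqrt_pos.2
    nlinarith
  set μ := mu α k with hμd
  have ha : Integrable (fun x => α * Gk μ |x|) := (h2.2.2.2.2.1 μ hμ).const_mul α
  set a : ℝ → ℝ := fun x => α * Gk μ |x| with had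
  -- the convolution
  have hconv : ∀ s, (∫ r, α * Gk μ |s - r| * w r) = (w ⋆[ContinuousLinearMap.mul ℝ ℝ] a) s := by
    intro s
    rw [convolution_def]
    refine integral_congr_ae (ae_of_all _ fun r => ?_)
    simp only [ContinuousLinearMap.mul_apply', had]
    ring
  have hCint : Integrable (fun s => ∫ r, α * Gk μ |s - r| * w r) := by
    have := hw.int.integrable_convolution (ContinuousLinearMap.mul ℝ ℝ) ha
    refine this.congr (ae_of_all _ fun s => ?_)
    exact (hconv s).symm
  have hF : Integrable (fun s => w s + (∫ r, α * Gk μ |s - r| * w r) - a s) :=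
    (hw.int.add hCint).sub ha
  have key := inj hF ?_
  · filter_upwards [key] with s hs
    have : w s + (∫ r, α * Gk μ |s - r| * w r) - a s = 0 := hs
    simp only [had] at this ⊢
    linarith
  intro p
  have hq : 0 < √(p ^ 2 + μ ^ 2) := Real.sqrt_pos.2 (by positivity)
  set q := √(p ^ 2 + μ ^ 2) with hqd
  -- the transform of `a`
  have hA : ∫ r, (a r : ℂ) * pw p r = ((α / (2 * q) : ℝ) : ℂ) := by
    have h3 := h.1 μ p hμ
    have h4 : ∀ r : ℝ, (a r : ℂ) * pw p r = (α : ℂ) * (((Gk μ |r| : ℝ) : ℂ) * pw p r) := by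
      intro r
      simp only [had]
      push_cast
      ring
    rw [integral_congr_ae (ae_of_all _ h4), integral_const_mul, h3]
    push_cast
    rw [← hqd]
    ring
  -- the transform of the convolution
  have hC : ∫ s, ((∫ r, α * Gk μ |s - r| * w r : ℝ) : ℂ) * pw p s =
      (∫ r, (w r : ℂ) * pw p r) * ∫ r, (a r : ℂ) * pw p r := by
    have h5 := integral_convolution (ContinuousLinearMap.mul ℂ ℂ) (integrable_pw hw.int p)
      (integrable_pw ha p) (μ := volume) (ν := volume)
    have h6 : ∀ s : ℝ, ((∫ r, α * Gk μ |s - r| * w r : ℝ) : ℂ) * pw p s =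
        ((fun x => (w x : ℂ) * pw p x) ⋆[ContinuousLinearMap.mul ℂ ℂ]
          (fun x => (a x : ℂ) * pw p x)) s := by
      intro s
      rw [convolution_def, ← integral_complex_ofReal, ← integral_mul_const]
      refine integral_congr_ae (ae_of_all _ fun r => ?_)
      simp only [ContinuousLinearMap.mul_apply', had]
      have h7 : pw p s = pw p r * pw p (s - r) := by
        rw [← pw_add]
        congr 1
        ring
      rw [h7]
      push_cast
      ring
    rw [integral_congr_ae (ae_of_all _ h6), h5]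
    simp only [ContinuousLinearMap.mul_apply']
  have e1 : ∀ s : ℝ, (((w s + (∫ r, α * Gk μ |s - r| * w r) - a s : ℝ)) : ℂ) * pw p s =
      (w s : ℂ) * pw p s + ((∫ r, α * Gk μ |s - r| * w r : ℝ) : ℂ) * pw p s -
        (a s : ℂ) * pw p s := by
    intro s
    push_cast
    ring
  have e2 : ∫ s, (((w s + (∫ r, α * Gk μ |s - r| * w r) - a s : ℝ)) : ℂ) * pw p s =
      (∫ s, (w s : ℂ) * pw p s) + (∫ s, ((∫ r, α * Gk μ |s - r| * w r : ℝ) : ℂ) * pw p s) -
        ∫ s, (a s : ℂ) * pw p s := by
    have i1 : Integrable (fun s => (w s : ℂ) * pw p s +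
        ((∫ r, α * Gk μ |s - r| * w r : ℝ) : ℂ) * pw p s) :=
      (integrable_pw hw.int p).add (integrable_pw hCint p)
    rw [integral_congr_ae (ae_of_all _ e1), integral_sub i1 (integrable_pw ha p),
      integral_add (integrable_pw hw.int p) (integrable_pw hCint p)]
  rw [e2, hC, hA, hw.ft p]
  have hαq : 0 < α + 2 * q := by nlinarith
  rw [← Complex.ofReal_mul, ← Complex.ofReal_add, ← Complex.ofReal_sub]
  rw [← hμd, ← hqd]
  have e3 : α / (α + 2 * q) + α / (α + 2 * q) * (α / (2 * q)) - α / (2 * q) = 0 := by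
    field_simp
    ring
  rw [e3, Complex.ofReal_zero]

end Pool.Agent.E8helper51.LC
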